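import Pool.Agent.H47.ST.Targets

/-!
# MP_78620a_co, row FIN: the asymptotics
-/

namespace Pool.Agent.H55.STK

open Finset Pool.Agent.H47.ST

/-- the main term of `lam` -/
theorem lam1_FIN : (101 / 100 : ℝ) ^ 2 * (100 / (100 - 1)) * (1 / (2 * Real.exp 1)) *
    (Real.exp 1 - 1) ≤ 3257 / 10000 := by
  have h1 := Real.exp_one_lt_d9
  have h0 := Real.exp_one_gt_d9
  have hpos : 0 < Real.exp 1 := Real.exp_pos 1
  have h2 : (101 / 100 : ℝ) ^ 2 * (100 / (100 - 1)) * (1 / (2 * Real.exp 1)) *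
      (Real.exp 1 - 1) = (10201 / 9900) * (Real.exp 1 - 1) / (2 * Real.exp 1) := by
    field_simp
    norm_num
    ring
  rw [h2, div_le_iff₀ (by positivity)]
  linarith

/-- the constant `KK` -/
theorem kk_FIN (R : ℕ) (hR : 1 ≤ R) : KK R 100 (101 / 100) ≤ 10 ^ 11 := by
  unfold KK
  have h1 : ((R : ℝ) + 1) / R ≤ 2 := by
    have h2 : (1 : ℝ) ≤ R := by exact_mod_cast hR
    rw [div_le_iff₀ (by linarith)]
    linarith
  have h3 : Real.exp (((R : ℝ) + 1) / R) ≤ Real.exp 2 := Real.exp_le_exp.2 h1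
  have h4 : Real.exp 2 = Real.exp 1 * Real.exp 1 := by
    rw [← Real.exp_add]
    norm_num
  have h5 := Real.exp_one_lt_d9
  have hpos : 0 < Real.exp 1 := Real.exp_pos 1
  have h6 : Real.exp 1 * Real.exp 1 ≤ 2.72 * 2.72 := by
    apply mul_le_mul <;> linarith
  have h7 : Real.exp (((R : ℝ) + 1) / R) ≤ 2.72 * 2.72 := by linarith
  calc (100 : ℝ) ^ 5 * (101 / 100) ^ 3 * Real.exp (((R : ℝ) + 1) / R) ≤
      (100 : ℝ) ^ 5 * (101 / 100) ^ 3 * (2.72 * 2.72) := by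
        apply mul_le_mul_of_nonneg_left h7
        positivity
    _ ≤ 10 ^ 11 := by norm_num

theorem kk0_FIN (R : ℕ) : 0 ≤ KK R 100 (101 / 100) := by
  unfold KK
  positivity

/-- the bound of `lam` -/
theorem lam_FIN (R s : ℕ) (hR : 1 ≤ R) (hs : 10 ^ 17 ≤ s) (hsR : s * s ≤ R) :
    lam R (R * s) 100 (101 / 100) * (11 / 10) ≤ 36 / 100 * (R : ℝ) ^ 2 := by
  have hs' : (10 : ℝ) ^ 17 ≤ s := by exact_mod_cast hs
  have hR' : (1 : ℝ) ≤ R := by exact_mod_cast hR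
  have hsR' : (s : ℝ) * s ≤ R := by exact_mod_cast hsR
  have h1 : (101 / 100 : ℝ) ^ 2 * (100 / (100 - 1)) * (R / (2 * Real.exp 1)) *
      (R * (Real.exp 1 - 1)) ≤ 3257 / 10000 * (R : ℝ) ^ 2 := by
    have h2 : (101 / 100 : ℝ) ^ 2 * (100 / (100 - 1)) * (R / (2 * Real.exp 1)) *
      (R * (Real.exp 1 - 1)) = ((101 / 100 : ℝ) ^ 2 * (100 / (100 - 1)) *
        (1 / (2 * Real.exp 1)) * (Real.exp 1 - 1)) * (R : ℝ) ^ 2 := by ring
    rw [h2]
    exact mul_le_mul_of_nonneg_right lam1_FIN (by positivity)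
  have h3 : KK R 100 (101 / 100) *
      (((R * s : ℕ) : ℝ) * ((101 / 100) / (101 / 100 - 1)) + 3) ≤ 10 ^ 11 * (104 * (R * s)) := by
    apply mul_le_mul (kk_FIN R hR) _ (by positivity) (by positivity)
    push_cast
    have h4 : (1 : ℝ) ≤ R * s := by nlinarith
    have h5 : ((101 / 100 : ℝ)) / (101 / 100 - 1) = 101 := by norm_num
    rw [h5]
    linarith
  have h6 : (10 : ℝ) ^ 11 * (104 * (R * s)) ≤ 1 / 1000 * (R : ℝ) ^ 2 := by
    have h7 : (10 : ℝ) ^ 17 * s ≤ s * s := mul_le_mul_of_nonneg_right hs' (by positivity)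
    have h8 : (10 : ℝ) ^ 17 * s ≤ R := by linarith
    have h9 : (R : ℝ) * (10 ^ 17 * s) ≤ R * R := mul_le_mul_of_nonneg_left h8 (by positivity)
    nlinarith
  unfold lam
  nlinarith

/-- the factorial -/
theorem fact_FIN (R k : ℕ) (hR : 1 ≤ R) : (R : ℝ) ^ (R * k) ≤
    Real.exp ((R * k : ℕ) : ℝ) * (R : ℝ) ^ k * ((R - 1).factorial : ℝ) ^ k := by
  have h1 := Real.pow_div_factorial_le_exp (R : ℝ) (by positivity) R
  have h2 : (0 : ℝ) < R.factorial := by exact_mod_cast Nat.factorial_pos R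
  rw [div_le_iff₀ h2] at h1
  have h3 : (R.factorial : ℝ) = R * (R - 1).factorial := by
    rw [← Nat.mul_factorial_pred (by omega)]
    push_cast
    ring
  rw [pow_mul]
  calc ((R : ℝ) ^ R) ^ k ≤ (Real.exp R * R.factorial) ^ k :=
        pow_le_pow_left₀ (by positivity) h1 k
    _ = _ := by
      rw [h3, mul_pow, mul_pow, ← Real.exp_nat_mul, mul_assoc]
      congr 2
      push_cast
      ring

/-- the logarithm of `R` is small -/
theorem log_FIN (R s : ℕ) (hs : 10 ^ 17 ≤ s) (hsR : R < (s + 1) * (s + 1)) (hR : 1 ≤ R) :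
    Real.log R ≤ s / 2000 := by
  have hs' : (10 : ℝ) ^ 17 ≤ s := by exact_mod_cast hs
  have hR' : (1 : ℝ) ≤ R := by exact_mod_cast hR
  have hsR' : (R : ℝ) ≤ (s + 1) ^ 2 := by
    have h1 : (R : ℝ) < (s + 1) * (s + 1) := by exact_mod_cast hsR
    nlinarith
  have h1 : Real.log R ≤ Real.log (((s : ℝ) + 1) ^ 2) :=
    Real.log_le_log (by linarith) hsR'
  have h2 : Real.log (((s : ℝ) + 1) ^ 2) = 4 * Real.log (Real.sqrt ((s : ℝ) + 1)) := by
    rw [Real.log_pow, Real.log_sqrt (by positivity)]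
    push_cast
    ring
  have h3 : Real.log (Real.sqrt ((s : ℝ) + 1)) ≤ Real.sqrt ((s : ℝ) + 1) - 1 :=
    Real.log_le_sub_one_of_pos (Real.sqrt_pos.2 (by positivity))
  have h4 : Real.sqrt ((s : ℝ) + 1) ≤ s / 8000 := by
    rw [Real.sqrt_le_left (by positivity)]
    have h5 : (10 : ℝ) ^ 17 * s ≤ s * s := mul_le_mul_of_nonneg_right hs' (by positivity)
    nlinarith
  linarith

/-- the bound of the error terms -/
theorem err_FIN (R s k n m : ℕ) (hs : 10 ^ 17 ≤ s) (hsR : s * s ≤ R)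
    (hk : k = R ^ 2 * (R ^ 2 + R - 1)) (hn : n = R * k) (hm : m = n / (R * s) + 1) :
    9 * (((R : ℝ) + 1) * m) + 4 * (R : ℝ) ^ 4 + k ≤ 41 * (n / s) ∧ n ≤ R ^ 5 + R ^ 4 ∧
      R ^ 5 ≤ n ∧ m ≤ R ^ 6 := by
  have hs1 : 1 ≤ s := le_trans (by norm_num) hs
  have hsR1 : s ≤ R := le_trans (Nat.le_mul_self s) hsR
  have hR1 : 10 ^ 17 ≤ R := hs.trans hsR1
  have hnk : n = R ^ 3 * (R ^ 2 + R - 1) := by
    rw [hn, hk]
    ring
  have hn1 : n ≤ R ^ 5 + R ^ 4 := by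
    rw [hnk]
    calc R ^ 3 * (R ^ 2 + R - 1) ≤ R ^ 3 * (R ^ 2 + R) := Nat.mul_le_mul_left _ (Nat.sub_le _ _)
      _ = _ := by ring
  have hn2 : R ^ 5 ≤ n := by
    rw [hnk]
    calc R ^ 5 = R ^ 3 * R ^ 2 := by ring
      _ ≤ _ := Nat.mul_le_mul_left _ (by omega)
  have hm1 : m ≤ R ^ 6 := by
    have h1 : n / (R * s) ≤ n := Nat.div_le_self _ _
    have h2 : m ≤ R ^ 5 + R ^ 4 + 1 := by omega
    have h3 : 1 ≤ R ^ 4 := Nat.one_le_pow _ _ (by omega)
    have h4 : R ^ 6 = R * R * R ^ 4 := by ring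
    have h5 : R ^ 5 = R * R ^ 4 := by ring
    have h6 : R ^ 5 + R ^ 4 + 1 ≤ R ^ 6 := by
      rw [h4, h5]
      have h7 : R * R ^ 4 + R ^ 4 + R ^ 4 ≤ R * R * R ^ 4 := by
        have h8 : (R + 2) * R ^ 4 ≤ (R * R) * R ^ 4 := by
          apply Nat.mul_le_mul_right
          nlinarith
        linarith
      omega
    omega
  refine ⟨?_, hn1, hn2, hm1⟩
  have hs' : (1 : ℝ) ≤ s := by exact_mod_cast hs1
  have hR' : (1 : ℝ) ≤ R := by exact_mod_cast (le_trans (by norm_num) hR1)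
  have hsR' : (s : ℝ) ≤ R := by exact_mod_cast hsR1
  have hn' : (R : ℝ) ^ 5 ≤ n := by exact_mod_cast hn2
  have hkn : (n : ℝ) = R * k := by
    rw [hn]
    push_cast
    ring
  have hRp : (0 : ℝ) < R := by linarith
  have hsp : (0 : ℝ) < s := by linarith
  have e1 : (R : ℝ) ^ 4 ≤ n / s := by
    rw [le_div_iff₀ hsp]
    calc (R : ℝ) ^ 4 * s ≤ R ^ 4 * R := mul_le_mul_of_nonneg_left hsR' (by positivity)
      _ = R ^ 5 := by ring
      _ ≤ n := hn'
  have e2 : (k : ℝ) ≤ n / s := by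
    rw [le_div_iff₀ hsp, hkn, mul_comm]
    exact mul_le_mul_of_nonneg_right hsR' (by positivity)
  have e3 : (m : ℝ) ≤ n / (R * s) + 1 := by
    rw [hm]
    push_cast
    have h1 : ((n / (R * s) : ℕ) : ℝ) ≤ (n : ℝ) / ((R * s : ℕ) : ℝ) := Nat.cast_div_le
    push_cast at h1
    linarith
  have e4 : ((R : ℝ) + 1) * m ≤ 4 * (n / s) := by
    have h1 : ((R : ℝ) + 1) * m ≤ (2 * R) * (n / (R * s) + 1) := by
      apply mul_le_mul (by linarith) e3 (by positivity) (by positivity)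
    have h2 : (2 * (R : ℝ)) * (n / (R * s) + 1) = 2 * (n / s) + 2 * R := by
      field_simp
    have h3 : (R : ℝ) ≤ R ^ 4 := by
      calc (R : ℝ) = R ^ 1 := (pow_one _).symm
        _ ≤ R ^ 4 := pow_le_pow_right₀ hR' (by norm_num)
    linarith
  linarith

theorem pf_FIN : T_FIN := by
  refine ⟨10 ^ 34, ?_⟩
  intro R m0 k n m hR0 hm0 hk hn hm
  obtain ⟨s, hs⟩ : ∃ s, s = Nat.sqrt R := ⟨_, rfl⟩
  have hs17 : 10 ^ 17 ≤ s := by
    rw [hs, Nat.le_sqrt]
    exact le_trans (by norm_num) hR0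
  have hsR : s * s ≤ R := by
    rw [hs]
    exact Nat.sqrt_le R
  have hsR2 : R < (s + 1) * (s + 1) := by
    rw [hs]
    exact Nat.lt_succ_sqrt R
  have hR1 : 1 ≤ R := le_trans (by norm_num) hR0
  have hR2 : 2 ≤ R := le_trans (by norm_num) hR0
  rw [← hs] at hm0
  rw [hm0] at hm
  obtain ⟨herr, hn1, hn2, hm6⟩ := err_FIN R s k n m hs17 hsR hk hn hm
  have hR' : (1 : ℝ) ≤ R := by exact_mod_cast hR1
  have hRp : (0 : ℝ) < R := by linarith
  have hR2' : (2 : ℝ) ≤ R := by exact_mod_cast hR2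
  have hs' : (10 : ℝ) ^ 17 ≤ s := by exact_mod_cast hs17
  have hsp : (0 : ℝ) < s := lt_of_lt_of_le (by norm_num) hs'
  have hlog := log_FIN R s hs17 hsR2 hR1
  have hlog0 : 0 ≤ Real.log R := Real.log_nonneg hR'
  have hRe : (R : ℝ) = Real.exp (Real.log R) := (Real.exp_log hRp).symm
  have hpe : ∀ j : ℕ, (R : ℝ) ^ j = Real.exp (j * Real.log R) := by
    intro j
    rw [Real.exp_nat_mul, Real.exp_log hRp]
  have hn0 : (0 : ℝ) < n := by
    have h1 : (R : ℝ) ^ 5 ≤ n := by exact_mod_cast hn2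
    have h2 : (0 : ℝ) < (R : ℝ) ^ 5 := by positivity
    linarith
  -- the two error factors
  have E1 : (((m0 : ℝ) + 1) * m) ^ ((R + 1) * m) ≤
      Real.exp (9 * (((R : ℝ) + 1) * m) * Real.log R) := by
    have h1 : ((m0 : ℝ) + 1) * m ≤ (R : ℝ) ^ 9 := by
      have h2 : (m0 : ℝ) + 1 ≤ (R : ℝ) ^ 3 := by
        rw [hm0]
        push_cast
        have h3 : (s : ℝ) ≤ R := by
          exact_mod_cast le_trans (Nat.le_mul_self s) hsR
        have h4 : (R : ℝ) * s ≤ R * R := mul_le_mul_of_nonneg_left h3 hRp.le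
        have h5 : (R : ℝ) ^ 3 = R * (R * R) := by ring
        nlinarith
      have h3 : (m : ℝ) ≤ (R : ℝ) ^ 6 := by exact_mod_cast hm6
      calc ((m0 : ℝ) + 1) * m ≤ (R : ℝ) ^ 3 * (R : ℝ) ^ 6 :=
            mul_le_mul h2 h3 (by positivity) (by positivity)
        _ = _ := by ring
    calc (((m0 : ℝ) + 1) * m) ^ ((R + 1) * m) ≤ ((R : ℝ) ^ 9) ^ ((R + 1) * m) :=
          pow_le_pow_left₀ (by positivity) h1 _
      _ = (R : ℝ) ^ (9 * ((R + 1) * m)) := by rw [← pow_mul]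
      _ = Real.exp (9 * (((R : ℝ) + 1) * m) * Real.log R) := by
          rw [hpe]
          push_cast
          rfl
  have E2 : (((R : ℝ) ^ 2 + 1) ^ R) ^ (R ^ 2 * R) ≤ Real.exp (3 * (R : ℝ) ^ 4 * Real.log R) := by
    have h1 : (R : ℝ) ^ 2 + 1 ≤ (R : ℝ) ^ 3 := by
      have h5 : (R : ℝ) ^ 3 = R * (R * R) := by ring
      nlinarith
    calc (((R : ℝ) ^ 2 + 1) ^ R) ^ (R ^ 2 * R) ≤ (((R : ℝ) ^ 3) ^ R) ^ (R ^ 2 * R) :=
          pow_le_pow_left₀ (by positivity) (pow_le_pow_left₀ (by positivity) h1 _) _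
      _ = (R : ℝ) ^ (3 * R ^ 4) := by
          rw [← pow_mul, ← pow_mul]
          congr 1
          ring
      _ = Real.exp (3 * (R : ℝ) ^ 4 * Real.log R) := by
          rw [hpe]
          push_cast
          rfl
  -- the main factor
  have E0 : lam R m0 100 (101 / 100) ^ n * (11 / 10 : ℝ) ^ n ≤
      (36 / 100) ^ n * (R : ℝ) ^ (2 * n) := by
    rw [← mul_pow, pow_mul, ← mul_pow, hm0]
    refine pow_le_pow_left₀ ?_ (lam_FIN R s hR1 hs17 hsR) n
    refine mul_nonneg ?_ (by norm_num)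
    unfold lam
    have h1 : 0 ≤ Real.exp 1 - 1 := by
      have := Real.add_one_le_exp (1 : ℝ)
      linarith
    have h2 := kk0_FIN R
    have h3 : (0 : ℝ) ≤ (101 / 100) / (101 / 100 - 1) := by norm_num
    positivity
  -- the right hand side
  have hfac := fact_FIN R k hR1
  rw [← hn] at hfac
  have hF : (R : ℝ) ^ (2 * n) ≤ (((R : ℝ) ^ (R ^ 2)) ^ (R ^ 2 * R) *
      ((R - 1).factorial : ℝ) ^ k) * Real.exp (n + (R ^ 4 + k) * Real.log R) := by
    have h1 : (R : ℝ) ^ n ≤ (R : ℝ) ^ (R ^ 5 + R ^ 4) := pow_le_pow_right₀ hR' hn1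
    have h2 : ((R : ℝ) ^ (R ^ 2)) ^ (R ^ 2 * R) = (R : ℝ) ^ (R ^ 5) := by
      rw [← pow_mul]
      congr 1
      ring
    calc (R : ℝ) ^ (2 * n) = (R : ℝ) ^ n * (R : ℝ) ^ n := by rw [two_mul, pow_add]
      _ ≤ (R : ℝ) ^ (R ^ 5 + R ^ 4) *
          (Real.exp (n : ℝ) * (R : ℝ) ^ k * ((R - 1).factorial : ℝ) ^ k) :=
          mul_le_mul h1 hfac (by positivity) (by positivity)
      _ = _ := by
          rw [h2, pow_add, hpe (R ^ 4), hpe k, Real.exp_add, add_mul, Real.exp_add]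
          push_cast
          ring
  have hpos : (0 : ℝ) < Real.exp (n + (R ^ 4 + k) * Real.log R) := Real.exp_pos _
  -- the last inequality
  have hlast : (36 / 100 : ℝ) ^ n * (Real.exp (9 * (((R : ℝ) + 1) * m) * Real.log R) *
      Real.exp (3 * (R : ℝ) ^ 4 * Real.log R)) *
      Real.exp (n + (R ^ 4 + k) * Real.log R) < 1 := by
    have h1 : (36 / 100 : ℝ) ≤ Real.exp (-1 - 21 / 1000) := by
      have h2 := Real.exp_one_lt_d9
      have h3 : (36 / 100 : ℝ) * Real.exp 1 ≤ Real.exp (-(21 / 1000)) := by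
        have h4 := Real.add_one_le_exp (-(21 / 1000) : ℝ)
        linarith
      have h5 : Real.exp (-1 - 21 / 1000) = Real.exp (-(21 / 1000)) / Real.exp 1 := by
        rw [← Real.exp_sub]
        congr 1
        ring
      rw [h5, le_div_iff₀ (Real.exp_pos 1)]
      exact h3
    have h6 : (36 / 100 : ℝ) ^ n ≤ Real.exp (n * (-1 - 21 / 1000)) := by
      rw [Real.exp_nat_mul]
      exact pow_le_pow_left₀ (by norm_num) h1 n
    have h7 : (9 * (((R : ℝ) + 1) * m) + 4 * (R : ℝ) ^ 4 + k) * Real.log R ≤ 41 * n / 2000 := by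
      calc (9 * (((R : ℝ) + 1) * m) + 4 * (R : ℝ) ^ 4 + k) * Real.log R ≤
          41 * (n / s) * (s / 2000) := mul_le_mul herr hlog hlog0 (by positivity)
        _ = 41 * n / 2000 := by
          field_simp
    calc (36 / 100 : ℝ) ^ n * (Real.exp (9 * (((R : ℝ) + 1) * m) * Real.log R) *
        Real.exp (3 * (R : ℝ) ^ 4 * Real.log R)) * Real.exp (n + (R ^ 4 + k) * Real.log R) ≤
        Real.exp (n * (-1 - 21 / 1000)) *
        (Real.exp (9 * (((R : ℝ) + 1) * m) * Real.log R) *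
        Real.exp (3 * (R : ℝ) ^ 4 * Real.log R)) * Real.exp (n + (R ^ 4 + k) * Real.log R) := by
          apply mul_le_mul_of_nonneg_right _ hpos.le
          exact mul_le_mul_of_nonneg_right h6 (by positivity)
      _ = Real.exp (-(21 / 1000) * n +
          (9 * (((R : ℝ) + 1) * m) + 4 * (R : ℝ) ^ 4 + k) * Real.log R) := by
          rw [← Real.exp_add, ← Real.exp_add, ← Real.exp_add]
          congr 1
          ring
      _ < 1 := by
          rw [Real.exp_lt_one_iff]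
          linarith
  have hRHS : 0 < ((R : ℝ) ^ (R ^ 2)) ^ (R ^ 2 * R) * ((R - 1).factorial : ℝ) ^ k := by
    have h1 : (0 : ℝ) < (R - 1).factorial := by exact_mod_cast Nat.factorial_pos _
    positivity
  calc lam R m0 100 (101 / 100) ^ n * (((m0 : ℝ) + 1) * m) ^ ((R + 1) * m) *
      ((11 / 10 : ℝ) ^ n * (((R : ℝ) ^ 2 + 1) ^ R) ^ (R ^ 2 * R)) =
      (lam R m0 100 (101 / 100) ^ n * (11 / 10 : ℝ) ^ n) *
        ((((m0 : ℝ) + 1) * m) ^ ((R + 1) * m) * (((R : ℝ) ^ 2 + 1) ^ R) ^ (R ^ 2 * R)) := by ring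
    _ ≤ ((36 / 100) ^ n * (R : ℝ) ^ (2 * n)) *
        (Real.exp (9 * (((R : ℝ) + 1) * m) * Real.log R) *
          Real.exp (3 * (R : ℝ) ^ 4 * Real.log R)) :=
        mul_le_mul E0 (mul_le_mul E1 E2 (by positivity) (by positivity)) (by positivity)
          (by positivity)
    _ ≤ ((36 / 100) ^ n * ((((R : ℝ) ^ (R ^ 2)) ^ (R ^ 2 * R) *
      ((R - 1).factorial : ℝ) ^ k) * Real.exp (n + (R ^ 4 + k) * Real.log R))) *
        (Real.exp (9 * (((R : ℝ) + 1) * m) * Real.log R) *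
          Real.exp (3 * (R : ℝ) ^ 4 * Real.log R)) := by
        apply mul_le_mul_of_nonneg_right _ (by positivity)
        exact mul_le_mul_of_nonneg_left hF (by positivity)
    _ = (((R : ℝ) ^ (R ^ 2)) ^ (R ^ 2 * R) * ((R - 1).factorial : ℝ) ^ k) *
        ((36 / 100 : ℝ) ^ n * (Real.exp (9 * (((R : ℝ) + 1) * m) * Real.log R) *
      Real.exp (3 * (R : ℝ) ^ 4 * Real.log R)) *
      Real.exp (n + (R ^ 4 + k) * Real.log R)) := by ring
    _ < (((R : ℝ) ^ (R ^ 2)) ^ (R ^ 2 * R) * ((R - 1).factorial : ℝ) ^ k) * 1 :=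
        mul_lt_mul_of_pos_left hlast hRHS
    _ = _ := by rw [mul_one]

end Pool.Agent.H55.STK
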